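import Pool.Agent.P8H60.JG.CZero

/-! # Project JG, package EUL (helper60) -/

set_option autoImplicit false

namespace Pool.Agent.P8H60.JG

open NumberField Ideal IsDedekindDomain Filter Topology UniqueFactorizationMonoid
open Pool.Agent.P8H82.JG

variable {K : Type} [Field K] [NumberField K]

/-- the nonzero ideals supported on `Z` -/
def AZ (Z : Finset (HeightOneSpectrum (𝓞 K))) : Set (Ideal (𝓞 K)) :=
  {w | w ≠ ⊥ ∧ ∀ P : HeightOneSpectrum (𝓞 K), w ≤ P.asIdeal → P ∈ Z}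

/-- the sum of the local factors -/
noncomputable def ss (q : ℝ) : ℝ :=
  3 * (q - 1) / (q ^ 2 + q - 3) * (q ^ (-(1 : ℝ) / 3) / (1 - q ^ (-(1 : ℝ) / 3))) + 1

lemma xq {q : ℝ} (hq : 2 ≤ q) : 0 < q ^ (-(1 : ℝ) / 3) ∧ q ^ (-(1 : ℝ) / 3) < 1 ∧
    (q ^ (-(1 : ℝ) / 3)) ^ 3 * q = 1 := by
  refine ⟨by positivity, Real.rpow_lt_one_of_one_lt_of_neg (by linarith) (by norm_num), ?_⟩
  rw [← Real.rpow_natCast, ← Real.rpow_mul (by linarith)]
  norm_num
  rw [Real.rpow_neg_one, inv_mul_cancel₀ (by linarith)]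

lemma rr_sum {q : ℝ} (hq : 2 ≤ q) : HasSum (rr q) (ss q) := by
  obtain ⟨h0, h1, -⟩ := xq hq
  set x := q ^ (-(1 : ℝ) / 3) with hx
  set B := 3 * (q - 1) / (q ^ 2 + q - 3) with hB
  have h2 : ∀ e : ℕ, rr q (e + 1) = B * x * x ^ e := by
    intro e
    unfold rr
    rw [if_neg (by omega), ← Real.rpow_pow_comm (by linarith), ← hx, ← hB, pow_succ]
    ring
  have h3 : HasSum (fun e : ℕ => rr q (e + 1)) (B * x * (1 - x)⁻¹) := by
    simp_rw [h2]
    exact (hasSum_geometric_of_lt_one h0.le h1).mul_left _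
  have h4 := (hasSum_nat_add_iff 1).1 h3
  rw [Finset.sum_range_one, rr_zero] at h4
  have e : ss q = B * x * (1 - x)⁻¹ + 1 := by
    unfold ss
    rw [← hx, ← hB]
    ring
  rw [e]
  exact h4

lemma local_eq {q : ℝ} (hq : 2 ≤ q) : dl q 0 * ss q =
    (1 - 1 / q) * (1 + 1 / q + 3 * q ^ (-(4 : ℝ) / 3) + 3 * q ^ (-(5 : ℝ) / 3)) := by
  obtain ⟨h0, h1, h3⟩ := xq hq
  have e4 : q ^ (-(4 : ℝ) / 3) = (q ^ (-(1 : ℝ) / 3)) ^ 4 := by
    rw [← Real.rpow_natCast, ← Real.rpow_mul (by linarith)]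
    norm_num
  have e5 : q ^ (-(5 : ℝ) / 3) = (q ^ (-(1 : ℝ) / 3)) ^ 5 := by
    rw [← Real.rpow_natCast, ← Real.rpow_mul (by linarith)]
    norm_num
  rw [e4, e5, dl_zero]
  unfold ss
  set x := q ^ (-(1 : ℝ) / 3) with hx
  have hq' : q = 1 / x ^ 3 := by
    field_simp
    linarith
  have hD : 0 < 1 + x ^ 3 - 3 * x ^ 6 := by
    have h5 : 0 < q ^ 2 + q - 3 := by nlinarith
    have h6 : 1 + x ^ 3 - 3 * x ^ 6 = (q ^ 2 + q - 3) * x ^ 6 := by
      rw [hq']
      field_simp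
    rw [h6]
    positivity
  have hB : 3 * (q - 1) / (q ^ 2 + q - 3) = 3 * x ^ 3 * (1 - x ^ 3) / (1 + x ^ 3 - 3 * x ^ 6) := by
    have h5 : q ^ 2 + q - 3 = (1 + x ^ 3 - 3 * x ^ 6) / x ^ 6 := by
      rw [hq']
      field_simp
    have h6 : q - 1 = (1 - x ^ 3) / x ^ 3 := by
      rw [hq']
      field_simp
    rw [h5, h6]
    obtain ⟨D, hDD⟩ : ∃ D : ℝ, D = 1 + x ^ 3 - 3 * x ^ 6 := ⟨_, rfl⟩
    rw [← hDD] at hD ⊢
    field_simp
  have e1 : 1 - 4 / q ^ 2 + 3 / q ^ 3 = (1 - x ^ 3) * (1 + x ^ 3 - 3 * x ^ 6) := by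
    rw [hq']
    field_simp
    ring
  have e2 : 1 / q = x ^ 3 := by
    rw [hq']
    field_simp
  rw [hB, e1, e2]
  have h1' : 1 - x ≠ 0 := by linarith
  obtain ⟨D, hDD⟩ : ∃ D : ℝ, D = 1 + x ^ 3 - 3 * x ^ 6 := ⟨_, rfl⟩
  rw [← hDD] at hD ⊢
  have h7 : (1 - x ^ 3) * D * (3 * x ^ 3 * (1 - x ^ 3) / D * (x / (1 - x)) + 1) =
      (1 - x ^ 3) * (3 * x ^ 4 * (1 + x + x ^ 2) + D) := by
    field_simp
    ring
  rw [h7, hDD]
  ring

lemma ord_mul_pow (P' P : HeightOneSpectrum (𝓞 K)) {w : Ideal (𝓞 K)} (hw : w ≠ ⊥) (e : ℕ) :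
    ord P' (P.asIdeal ^ e * w) = (open Classical in if P' = P then e else 0) + ord P' w := by
  classical
  unfold ord
  have hP : P.asIdeal ≠ 0 := P.ne_bot
  rw [normalizedFactors_mul (pow_ne_zero e hP) hw, normalizedFactors_pow,
    normalizedFactors_irreducible P.irreducible, Multiset.count_add, Multiset.count_nsmul,
    normalize_eq, Multiset.count_singleton]
  congr 1
  by_cases h : P' = P
  · rw [if_pos h, if_pos (by rw [h]), mul_one]
  · rw [if_neg h, if_neg (fun h' => h (HeightOneSpectrum.ext h')), mul_zero]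

lemma mem_insert_of {P : HeightOneSpectrum (𝓞 K)} {Z : Finset (HeightOneSpectrum (𝓞 K))}
    [DecidableEq (HeightOneSpectrum (𝓞 K))] {w : Ideal (𝓞 K)} (hw : w ∈ AZ Z) (e : ℕ) :
    P.asIdeal ^ e * w ∈ AZ (insert P Z) := by
  have h0 : P.asIdeal ^ e * w ≠ ⊥ := mul_ne_zero (pow_ne_zero e P.ne_bot) hw.1
  refine ⟨h0, fun P' hP' => ?_⟩
  rw [← ord_ne_zero_iff P' h0, ord_mul_pow P' P hw.1] at hP'
  rw [Finset.mem_insert]
  by_cases h : P' = P
  · exact Or.inl h
  · right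
    apply hw.2
    rw [← ord_ne_zero_iff P' hw.1]
    rwa [if_neg h, zero_add] at hP'

lemma rho_mul {P : HeightOneSpectrum (𝓞 K)} {Z : Finset (HeightOneSpectrum (𝓞 K))}
    (hP : P ∉ Z) {w : Ideal (𝓞 K)} (hw : w ∈ AZ Z) (e : ℕ) :
    rho (P.asIdeal ^ e * w) = rr (nP P) e * rho w := by
  classical
  have h1 := mem_insert_of (P := P) hw e
  rw [rho_eq h1.1 _ h1.2, rho_eq hw.1 _ hw.2, Finset.prod_insert hP]
  congr 1
  · rw [ord_mul_pow P P hw.1, if_pos rfl, (ord_eq_zero_iff P hw.1).2 (fun h => hP (hw.2 P h)),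
      add_zero]
  · refine Finset.prod_congr rfl fun P' hP' => ?_
    rw [ord_mul_pow P' P hw.1, if_neg (fun h : P' = P => hP (h ▸ hP')), zero_add]

/-- the sum over the ideals supported on a finite set -/
lemma sum_AZ (Z : Finset (HeightOneSpectrum (𝓞 K))) :
    HasSum ((AZ Z).indicator (fun w : Ideal (𝓞 K) => rho w)) (∏ P ∈ Z, ss (nP P)) := by
  classical
  induction Z using Finset.induction_on with
  | empty =>
    rw [Finset.prod_empty]
    have h1 : ((⊤ : Ideal (𝓞 K))) ∈ AZ (∅ : Finset (HeightOneSpectrum (𝓞 K))) := by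
      refine ⟨top_ne_bot, fun P hP => ?_⟩
      exact absurd (top_le_iff.1 hP) P.isPrime.ne_top
    have h2 : rho (⊤ : Ideal (𝓞 K)) = 1 := by
      rw [rho_eq h1.1 _ h1.2, Finset.prod_empty]
    have h3 : ∀ w : Ideal (𝓞 K), w ≠ ⊤ →
        (AZ (∅ : Finset (HeightOneSpectrum (𝓞 K)))).indicator (fun w : Ideal (𝓞 K) => rho w) w = 0 := by
      intro w hw
      apply Set.indicator_of_notMem
      rintro ⟨h4, h5⟩
      obtain ⟨M, hM, hwM⟩ := Ideal.exists_le_maximal w hw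
      have hM0 : M ≠ ⊥ := fun h => h4 (le_bot_iff.1 (h ▸ hwM))
      exact absurd (h5 ⟨M, hM.isPrime, hM0⟩ hwM) (Finset.notMem_empty _)
    have h4 := hasSum_single (f := (AZ (∅ : Finset (HeightOneSpectrum (𝓞 K)))).indicator
      (fun w : Ideal (𝓞 K) => rho w)) ⊤ h3
    rwa [Set.indicator_of_mem h1, h2] at h4
  | insert P Z hP ih =>
    rw [Finset.prod_insert hP]
    rw [← hasSum_subtype_iff_indicator] at ih
    have h1 := rr_sum (two_le_nP P)
    have h2 : Summable fun x : ℕ × (AZ Z) => rr (nP P) x.1 * ((fun w : Ideal (𝓞 K) => rho w) ∘ (↑)) x.2 := by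
      refine h1.summable.mul_of_nonneg ih.summable (fun e => rr_nonneg (two_le_nP P) e) fun w => ?_
      show 0 ≤ rho (w : Ideal (𝓞 K))
      rw [rho_eq w.2.1 _ w.2.2]
      exact Finset.prod_nonneg fun P _ => rr_nonneg (two_le_nP P) _
    have h3 := h1.mul ih h2
    set ψ : ℕ × (AZ Z) → Ideal (𝓞 K) := fun x => P.asIdeal ^ x.1 * (x.2 : Ideal (𝓞 K)) with hψ
    have ordψ : ∀ x, ord P (ψ x) = x.1 := by
      intro x
      simp only [hψ]
      rw [ord_mul_pow P P x.2.2.1, if_pos rfl,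
        (ord_eq_zero_iff P x.2.2.1).2 (fun h => hP (x.2.2.2 P h)), add_zero]
    have hinj : Function.Injective ψ := by
      intro x y hxy
      have e1 : x.1 = y.1 := by rw [← ordψ x, ← ordψ y, hxy]
      have e2 : P.asIdeal ^ x.1 * (x.2 : Ideal (𝓞 K)) = P.asIdeal ^ x.1 * (y.2 : Ideal (𝓞 K)) := by
        have : P.asIdeal ^ x.1 * (x.2 : Ideal (𝓞 K)) = P.asIdeal ^ y.1 * (y.2 : Ideal (𝓞 K)) := hxy
        rwa [← e1] at this
      have e3 := mul_left_cancel₀ (pow_ne_zero x.1 P.ne_bot) e2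
      exact Prod.ext e1 (Subtype.ext e3)
    have hrange : ∀ w : Ideal (𝓞 K), w ∉ Set.range ψ →
        (AZ (insert P Z)).indicator (fun w : Ideal (𝓞 K) => rho w) w = 0 := by
      intro w hw
      apply Set.indicator_of_notMem
      intro h4
      apply hw
      have h5 := prod_ord h4.1 _ h4.2
      rw [Finset.prod_insert hP] at h5
      refine ⟨(ord P w, ⟨∏ P' ∈ Z, P'.asIdeal ^ ord P' w, ?_, ?_⟩), h5⟩
      · exact Finset.prod_ne_zero_iff.2 fun P' _ => pow_ne_zero _ P'.ne_bot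
      · intro P'' hP''
        rw [P''.isPrime.prod_le] at hP''
        obtain ⟨P', hP', h6⟩ := hP''
        have h7 := P''.isPrime.le_of_pow_le h6
        have h8 : P' = P'' := HeightOneSpectrum.ext (P'.isMaximal.eq_of_le P''.isPrime.ne_top h7)
        rwa [← h8]
    rw [← hinj.hasSum_iff hrange]
    have e : ((AZ (insert P Z)).indicator (fun w : Ideal (𝓞 K) => rho w)) ∘ ψ =
        fun x : ℕ × (AZ Z) => rr (nP P) x.1 * ((fun w : Ideal (𝓞 K) => rho w) ∘ (↑)) x.2 := by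
      funext x
      show (AZ (insert P Z)).indicator (fun w : Ideal (𝓞 K) => rho w)
        (P.asIdeal ^ x.1 * (x.2 : Ideal (𝓞 K))) = rr (nP P) x.1 * rho (x.2 : Ideal (𝓞 K))
      rw [Set.indicator_of_mem (mem_insert_of x.2.2 x.1), rho_mul hP x.2.2]
    rw [e]
    exact h3

lemma rho_bot : rho (⊥ : Ideal (𝓞 K)) = 0 := by
  unfold rho
  rw [Ideal.absNorm_bot, Nat.cast_zero, Real.zero_rpow (by norm_num), zero_mul]

lemma rho_nonneg (w : Ideal (𝓞 K)) : 0 ≤ rho w := by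
  by_cases hw : w = ⊥
  · rw [hw, rho_bot]
  · have h : ∀ P : HeightOneSpectrum (𝓞 K), w ≤ P.asIdeal → P ∈ (supp_finite hw).toFinset :=
      fun P hP => by
        rw [Set.Finite.mem_toFinset]
        exact hP
    rw [rho_eq hw _ h]
    exact Finset.prod_nonneg fun P _ => rr_nonneg (two_le_nP P) _

/-- package EUL -/
theorem eul (hc : S_C0) : S_EUL := by
  classical
  intro K _ _ hs
  obtain ⟨-, h1, -⟩ := hc K
  have h2 : Tendsto (fun Z : Finset (HeightOneSpectrum (𝓞 K)) => ∏ P ∈ Z, ss (nP P)) atTop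
      (𝓝 (∑' w : Ideal (𝓞 K), rho w)) := by
    have h3 : Tendsto (fun Z : Finset (HeightOneSpectrum (𝓞 K)) =>
        ∑' w : Ideal (𝓞 K), (AZ Z).indicator (fun w : Ideal (𝓞 K) => rho w) w) atTop
        (𝓝 (∑' w : Ideal (𝓞 K), rho w)) := by
      refine tendsto_tsum_of_dominated_convergence (bound := fun w => rho w) hs (fun w => ?_) ?_
      · by_cases hw : w = ⊥
        · refine tendsto_const_nhds.congr fun Z => ?_
          rw [hw, rho_bot, Set.indicator_of_notMem]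
          exact fun h => h.1 rfl
        · refine tendsto_const_nhds.congr' ?_
          filter_upwards [eventually_ge_atTop (supp_finite hw).toFinset] with Z hZ
          rw [Set.indicator_of_mem]
          refine ⟨hw, fun P hP => hZ ?_⟩
          rw [Set.Finite.mem_toFinset]
          exact hP
      · refine Eventually.of_forall fun Z w => ?_
        rw [Real.norm_eq_abs, abs_of_nonneg (Set.indicator_nonneg (fun w _ => rho_nonneg w) w)]
        exact Set.indicator_le_self' (fun _ _ => rho_nonneg _) w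
    refine h3.congr fun Z => (sum_AZ Z).tsum_eq
  have h4 : Tendsto (fun Z : Finset (HeightOneSpectrum (𝓞 K)) => (∏ P ∈ Z, dl (nP P) 0) *
      ∏ P ∈ Z, ss (nP P)) atTop (𝓝 (c0 K * ∑' w : Ideal (𝓞 K), rho w)) := by
    have h5 : Tendsto (fun Z : Finset (HeightOneSpectrum (𝓞 K)) => ∏ P ∈ Z, dl (nP P) 0) atTop
        (𝓝 (c0 K)) := by
      simpa [HasProd, SummationFilter.unconditional_filter] using h1
    exact h5.mul h2
  have h6 : Tendsto (fun Z : Finset (HeightOneSpectrum (𝓞 K)) => ∏ P ∈ Z, ((1 - 1 / nP P) *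
      (1 + 1 / nP P + 3 * nP P ^ (-(4 : ℝ) / 3) + 3 * nP P ^ (-(5 : ℝ) / 3)))) atTop
      (𝓝 (c0 K * ∑' w : Ideal (𝓞 K), rho w)) := by
    refine h4.congr fun Z => ?_
    rw [← Finset.prod_mul_distrib]
    exact Finset.prod_congr rfl fun P _ => local_eq (two_le_nP P)
  simpa [HasProd, SummationFilter.unconditional_filter] using h6

end Pool.Agent.P8H60.JG
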