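import Pool.Agent.P8H82.JG.Stm

/-!
# Project JG, packages SM and C0 (helper60)

The convergence of the sum over the primes is copied from `Pool.Agent.K4H74.SC.Sum`.
-/

set_option autoImplicit false

namespace Pool.Agent.P8H60.JG

open NumberField Ideal IsDedekindDomain Filter Topology UniqueFactorizationMonoid
open Pool.Agent.P8H82.JG

variable {K : Type} [Field K] [NumberField K]

/-- the rational prime below -/
noncomputable def bel (q : HeightOneSpectrum (𝓞 K)) : ℕ := absNorm (under ℤ q.asIdeal)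

lemma bel_prime (q : HeightOneSpectrum (𝓞 K)) : (bel q).Prime := by
  have := q.isPrime
  have : NeZero q.asIdeal := ⟨q.ne_bot⟩
  exact Nat.absNorm_under_prime q.asIdeal

lemma absNorm_pos (q : HeightOneSpectrum (𝓞 K)) : 0 < absNorm q.asIdeal :=
  Nat.pos_of_ne_zero (fun h => q.ne_bot (absNorm_eq_zero_iff.mp h))

lemma bel_le (q : HeightOneSpectrum (𝓞 K)) : bel q ≤ absNorm q.asIdeal :=
  Nat.le_of_dvd (absNorm_pos q) (Int.absNorm_under_dvd_absNorm q.asIdeal)

lemma two_le_absNorm (q : HeightOneSpectrum (𝓞 K)) : 2 ≤ absNorm q.asIdeal :=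
  (bel_prime q).two_le.trans (bel_le q)

lemma two_le_nP (q : HeightOneSpectrum (𝓞 K)) : (2 : ℝ) ≤ nP q := by
  unfold nP
  exact_mod_cast two_le_absNorm q

lemma fibre_card (T : Finset (HeightOneSpectrum (𝓞 K))) (n : ℕ) :
    (T.filter (fun q => bel q = n)).card ≤ Module.finrank ℚ K := by
  classical
  by_cases hn : n.Prime
  · let I : Ideal ℤ := span {(n : ℤ)}
    have hI : I ≠ ⊥ := by
      simp only [I, ne_eq, span_singleton_eq_bot]
      exact_mod_cast hn.ne_zero
    have hIp : I.IsPrime := (span_singleton_prime (by exact_mod_cast hn.ne_zero)).mpr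
      (Nat.prime_iff_prime_int.mp hn)
    have hIm : I.IsMaximal := hIp.isMaximal hI
    have h1 := Ideal.card_primesOverFinset_le_finrank (R := ℤ) (S := 𝓞 K) (K := ℚ) (L := K)
      (p := I) hI
    refine le_trans ?_ h1
    refine Finset.card_le_card_of_injOn (fun q => q.asIdeal) ?_ ?_
    · intro q hq
      rw [Finset.mem_coe, Finset.mem_filter] at hq
      rw [Finset.mem_coe, IsDedekindDomain.mem_primesOverFinset_iff hI]
      refine ⟨q.isPrime, ⟨?_⟩⟩
      have h2 : span {((absNorm (under ℤ q.asIdeal) : ℕ) : ℤ)} = under ℤ q.asIdeal :=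
        Int.ideal_span_absNorm_eq_self _
      rw [← h2]
      change I = span {((bel q : ℕ) : ℤ)}
      rw [hq.2]
    · intro q _ q' _ h
      exact HeightOneSpectrum.ext h
  · have h1 : T.filter (fun q => bel q = n) = ∅ := by
      rw [Finset.filter_eq_empty_iff]
      intro q _ h
      exact hn (h ▸ bel_prime q)
    rw [h1, Finset.card_empty]
    exact Nat.zero_le _

/-- package SM -/
theorem sm : S_SM := by
  classical
  intro K _ _
  have h0 : Summable (fun n : ℕ => 1 / (n : ℝ) ^ 2) := Real.summable_one_div_nat_pow.mpr one_lt_two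
  have hpos : ∀ n : ℕ, 0 ≤ 1 / (n : ℝ) ^ 2 := fun n => by positivity
  refine summable_of_sum_le (c := Module.finrank ℚ K * ∑' n : ℕ, 1 / (n : ℝ) ^ 2)
    (fun q => by have := two_le_nP q; positivity) fun T => ?_
  calc ∑ q ∈ T, 1 / nP q ^ 2
      ≤ ∑ q ∈ T, 1 / ((bel q : ℕ) : ℝ) ^ 2 := by
        refine Finset.sum_le_sum fun q _ => ?_
        have h1 : (0 : ℝ) < bel q := by exact_mod_cast (bel_prime q).pos
        have h2 : ((bel q : ℕ) : ℝ) ≤ nP q := by
          unfold nP
          exact_mod_cast bel_le q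
        exact one_div_le_one_div_of_le (by positivity) (pow_le_pow_left₀ h1.le h2 2)
    _ = ∑ n ∈ T.image bel, ∑ q ∈ T.filter (fun q => bel q = n),
          1 / ((bel q : ℕ) : ℝ) ^ 2 :=
        (Finset.sum_fiberwise_of_maps_to (fun q hq => Finset.mem_image_of_mem _ hq) _).symm
    _ = ∑ n ∈ T.image bel, ((T.filter (fun q => bel q = n)).card : ℝ) *
          (1 / (n : ℝ) ^ 2) := by
        refine Finset.sum_congr rfl fun n _ => ?_
        rw [← nsmul_eq_mul, ← Finset.sum_const]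
        refine Finset.sum_congr rfl fun q hq => ?_
        rw [(Finset.mem_filter.mp hq).2]
    _ ≤ ∑ n ∈ T.image bel, (Module.finrank ℚ K : ℝ) * (1 / (n : ℝ) ^ 2) := by
        refine Finset.sum_le_sum fun n _ => ?_
        refine mul_le_mul_of_nonneg_right ?_ (hpos n)
        exact_mod_cast fibre_card T n
    _ = (Module.finrank ℚ K : ℝ) * ∑ n ∈ T.image bel, 1 / (n : ℝ) ^ 2 := by
        rw [Finset.mul_sum]
    _ ≤ _ := mul_le_mul_of_nonneg_left (h0.sum_le_tsum _ fun n _ => hpos n) (Nat.cast_nonneg _)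

/-! ## The exponents -/

lemma ord_ne_zero_iff (P : HeightOneSpectrum (𝓞 K)) {w : Ideal (𝓞 K)} (hw : w ≠ ⊥) :
    ord P w ≠ 0 ↔ w ≤ P.asIdeal := by
  classical
  unfold ord
  rw [Multiset.count_ne_zero, Ideal.mem_normalizedFactors_iff hw]
  exact ⟨fun h => h.2, fun h => ⟨P.isPrime, h⟩⟩

lemma ord_eq_zero_iff (P : HeightOneSpectrum (𝓞 K)) {w : Ideal (𝓞 K)} (hw : w ≠ ⊥) :
    ord P w = 0 ↔ ¬ w ≤ P.asIdeal := by
  rw [← ord_ne_zero_iff P hw, not_not]

/-- the primes containing a nonzero ideal -/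
lemma supp_finite {w : Ideal (𝓞 K)} (hw : w ≠ ⊥) :
    {P : HeightOneSpectrum (𝓞 K) | w ≤ P.asIdeal}.Finite := by
  have := Ideal.finite_factors (I := w) hw
  refine this.subset fun P hP => ?_
  exact Ideal.dvd_iff_le.2 hP

/-- the factorization -/
lemma prod_ord {w : Ideal (𝓞 K)} (hw : w ≠ ⊥) (S : Finset (HeightOneSpectrum (𝓞 K)))
    (hS : ∀ P : HeightOneSpectrum (𝓞 K), w ≤ P.asIdeal → P ∈ S) :
    ∏ P ∈ S, P.asIdeal ^ ord P w = w := by
  classical
  have h1 := Ideal.finprod_heightOneSpectrum_factorization (I := w) hw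
  have h2 : ∀ P : HeightOneSpectrum (𝓞 K), P.maxPowDividing w = P.asIdeal ^ ord P w := by
    intro P
    unfold HeightOneSpectrum.maxPowDividing ord
    congr 1
    rw [Ideal.count_associates_factors_eq hw P.isPrime P.ne_bot]
  rw [finprod_eq_prod_of_mulSupport_subset (s := S)] at h1
  · rw [← h1]
    exact (Finset.prod_congr rfl fun P _ => by rw [h1, h2 P]).symm
  · intro P hP
    rw [Function.mem_mulSupport, h2] at hP
    rw [Finset.mem_coe]
    apply hS
    rw [← ord_ne_zero_iff P hw]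
    intro h
    apply hP
    rw [h, pow_zero]

lemma norm_prod {w : Ideal (𝓞 K)} (hw : w ≠ ⊥) (S : Finset (HeightOneSpectrum (𝓞 K)))
    (hS : ∀ P : HeightOneSpectrum (𝓞 K), w ≤ P.asIdeal → P ∈ S) :
    (Ideal.absNorm w : ℝ) = ∏ P ∈ S, nP P ^ ord P w := by
  conv_lhs => rw [← prod_ord hw S hS]
  rw [map_prod]
  push_cast
  exact Finset.prod_congr rfl fun P _ => by rw [map_pow]; push_cast; rfl

/-- the local factor of the weight -/
noncomputable def rr (q : ℝ) (e : ℕ) : ℝ :=
  if e = 0 then 1 else (q ^ e) ^ (-(1 : ℝ) / 3) * (3 * (q - 1) / (q ^ 2 + q - 3))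

lemma rr_zero (q : ℝ) : rr q 0 = 1 := if_pos rfl

lemma rr_nonneg {q : ℝ} (hq : 2 ≤ q) (e : ℕ) : 0 ≤ rr q e := by
  unfold rr
  split_ifs
  · exact zero_le_one
  · have h1 : 0 < q ^ 2 + q - 3 := by nlinarith
    have h2 : 0 ≤ q - 1 := by linarith
    positivity

/-- the weight as a product -/
lemma rho_eq {w : Ideal (𝓞 K)} (hw : w ≠ ⊥) (S : Finset (HeightOneSpectrum (𝓞 K)))
    (hS : ∀ P : HeightOneSpectrum (𝓞 K), w ≤ P.asIdeal → P ∈ S) :
    rho w = ∏ P ∈ S, rr (nP P) (ord P w) := by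
  classical
  unfold rho
  have h1 : ∏ᶠ (P : HeightOneSpectrum (𝓞 K)) (_ : w ≤ P.asIdeal),
      (3 * (nP P - 1) / (nP P ^ 2 + nP P - 3)) =
      ∏ P ∈ S, if ord P w = 0 then 1 else 3 * (nP P - 1) / (nP P ^ 2 + nP P - 3) := by
    have h2 : ∀ P : HeightOneSpectrum (𝓞 K), (∏ᶠ (_ : w ≤ P.asIdeal),
        (3 * (nP P - 1) / (nP P ^ 2 + nP P - 3))) =
        if ord P w = 0 then 1 else 3 * (nP P - 1) / (nP P ^ 2 + nP P - 3) := by
      intro P
      by_cases h : w ≤ P.asIdeal
      · rw [if_neg ((ord_ne_zero_iff P hw).2 h)]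
        simp [h]
      · rw [if_pos ((ord_eq_zero_iff P hw).2 h)]
        simp [h]
    rw [finprod_congr h2]
    apply finprod_eq_prod_of_mulSupport_subset
    intro P hP
    rw [Function.mem_mulSupport] at hP
    rw [Finset.mem_coe]
    apply hS
    by_contra h
    exact hP (if_pos ((ord_eq_zero_iff P hw).2 h))
  have h0 : (Ideal.absNorm w : ℝ) ^ (-(1 : ℝ) / 3) = ∏ P ∈ S, (nP P ^ ord P w) ^ (-(1 : ℝ) / 3) := by
    rw [norm_prod hw S hS]
    exact (Real.finsetProd_rpow S _ (fun P _ => by have := two_le_nP P; positivity) _).symm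
  rw [h1, h0, ← Finset.prod_mul_distrib]
  refine Finset.prod_congr rfl fun P _ => ?_
  unfold rr
  split_ifs with h
  · rw [h, pow_zero, Real.one_rpow, one_mul]
  · rfl

end Pool.Agent.P8H60.JG
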