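import Pool.Agent.P8H60.JG.Base

/-! # Project JG, package C0 (helper60) -/

set_option autoImplicit false

namespace Pool.Agent.P8H60.JG

open NumberField Ideal IsDedekindDomain Filter Topology
open Pool.Agent.P8H82.JG

variable {K : Type} [Field K] [NumberField K]

lemma dl_zero (q : ℝ) : dl q 0 = 1 - 4 / q ^ 2 + 3 / q ^ 3 := if_pos rfl

lemma dl_zero_eq {q : ℝ} (hq : 2 ≤ q) : dl q 0 = (q - 1) * (q ^ 2 + q - 3) / q ^ 3 := by
  rw [dl_zero]
  field_simp
  ring

lemma dl_zero_pos {q : ℝ} (hq : 2 ≤ q) : 0 < dl q 0 := by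
  rw [dl_zero_eq hq]
  have h1 : 0 < q ^ 2 + q - 3 := by nlinarith
  have h2 : 0 < q - 1 := by linarith
  positivity

lemma dl_pos_eq {q : ℝ} (hq : 2 ≤ q) {e : ℕ} (he : e ≠ 0) :
    dl q e = dl q 0 * ((q ^ e)⁻¹ * (3 * (q - 1) / (q ^ 2 + q - 3))) := by
  rw [dl_zero_eq hq]
  unfold dl
  rw [if_neg he]
  obtain ⟨A, hA⟩ : ∃ A : ℝ, A = q ^ 2 + q - 3 := ⟨_, rfl⟩
  have h1 : A ≠ 0 := by rw [hA]; nlinarith
  have h2 : q - 1 ≠ 0 := by linarith
  rw [← hA]
  field_simp
  ring

/-- the infinite product -/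
lemma c0_prod (hsm : S_SM) (K : Type) [Field K] [NumberField K] :
    0 < c0 K ∧ HasProd (fun P : HeightOneSpectrum (𝓞 K) => dl (nP P) 0) (c0 K) := by
  have hs : Summable (fun P : HeightOneSpectrum (𝓞 K) => dl (nP P) 0 - 1) := by
    refine Summable.of_norm_bounded ((hsm K).mul_left 4) fun P => ?_
    have hq := two_le_nP P
    rw [dl_zero, Real.norm_eq_abs, abs_le]
    have h1 : 3 / nP P ^ 3 ≤ 4 * (1 / nP P ^ 2) := by
      rw [mul_one_div]
      apply div_le_div₀ (by norm_num) (by norm_num) (by positivity)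
      exact pow_le_pow_right₀ (by linarith) (by norm_num)
    have h2 : 0 ≤ 3 / nP P ^ 3 := by positivity
    have h3 : 4 / nP P ^ 2 = 4 * (1 / nP P ^ 2) := by ring
    have h4 : 0 ≤ 1 / nP P ^ 2 := by positivity
    constructor <;> linarith
  have hl : Summable (fun P : HeightOneSpectrum (𝓞 K) => Real.log (dl (nP P) 0)) := by
    have := Real.summable_log_one_add_of_summable hs
    refine this.congr fun P => ?_
    congr 1
    ring
  have hp := Real.hasProd_of_hasSum_log (f := fun P : HeightOneSpectrum (𝓞 K) => dl (nP P) 0)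
    (fun P => dl_zero_pos (two_le_nP P)) hl.hasSum
  have he : c0 K = Real.exp (∑' P : HeightOneSpectrum (𝓞 K), Real.log (dl (nP P) 0)) := hp.tprod_eq
  rw [he]
  exact ⟨Real.exp_pos _, hp⟩

/-- package C0 -/
theorem c0_thm (hsm : S_SM) : S_C0 := by
  classical
  intro K _ _
  obtain ⟨h1, h2⟩ := c0_prod hsm K
  refine ⟨h1, h2, fun w hw => ?_⟩
  set S := (supp_finite hw).toFinset with hS
  have hSm : ∀ P : HeightOneSpectrum (𝓞 K), w ≤ P.asIdeal → P ∈ S := fun P hP => by
    rw [hS, Set.Finite.mem_toFinset]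
    exact hP
  have hfin : HasProd (fun P : HeightOneSpectrum (𝓞 K) => if ord P w = 0 then (1 : ℝ) else
      (nP P ^ ord P w)⁻¹ * (3 * (nP P - 1) / (nP P ^ 2 + nP P - 3)))
      (∏ P ∈ S, if ord P w = 0 then (1 : ℝ) else
      (nP P ^ ord P w)⁻¹ * (3 * (nP P - 1) / (nP P ^ 2 + nP P - 3))) := by
    apply hasProd_prod_of_ne_finset_one
    intro P hP
    rw [if_pos]
    rw [ord_eq_zero_iff P hw]
    exact fun h => hP (hSm P h)
  have h3 := h2.mul hfin
  have e1 : (∏ P ∈ S, if ord P w = 0 then (1 : ℝ) else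
      (nP P ^ ord P w)⁻¹ * (3 * (nP P - 1) / (nP P ^ 2 + nP P - 3))) =
      (Ideal.absNorm w : ℝ) ^ (-(2 : ℝ) / 3) * rho w := by
    rw [rho_eq hw S hSm, norm_prod hw S hSm,
      ← Real.finsetProd_rpow S _ (fun P _ => by have := two_le_nP P; positivity),
      ← Finset.prod_mul_distrib]
    refine Finset.prod_congr rfl fun P _ => ?_
    unfold rr
    split_ifs with h
    · rw [h, pow_zero, Real.one_rpow, one_mul]
    · have hq := two_le_nP P
      have hx : (0 : ℝ) < nP P ^ ord P w := by positivity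
      have e2 : -(2 : ℝ) / 3 + -(1 : ℝ) / 3 = -1 := by norm_num
      rw [← mul_assoc, ← Real.rpow_add hx, e2, Real.rpow_neg_one]
  rw [e1] at h3
  have e3 : (fun P : HeightOneSpectrum (𝓞 K) => dl (nP P) (ord P w)) = fun P =>
      dl (nP P) 0 * (if ord P w = 0 then (1 : ℝ) else
      (nP P ^ ord P w)⁻¹ * (3 * (nP P - 1) / (nP P ^ 2 + nP P - 3))) := by
    funext P
    split_ifs with h
    · rw [h, mul_one]
    · exact dl_pos_eq (two_le_nP P) h
  rw [e3]
  exact h3

end Pool.Agent.P8H60.JG
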