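import Pool.Agent.P8H82.JG.Stm

/-! # Project JG, package KKJ (helper60) -/

set_option autoImplicit false

namespace Pool.Agent.P8H60.JG

open MeasureTheory Filter Topology
open Pool.Agent.P8H82.JG

lemma KK_open (R : ℝ) : IsOpen (KK R) := by
  have h1 : IsOpen {x : ℝ | 1 / R < |x|} := isOpen_lt continuous_const continuous_abs
  have h2 : IsOpen {x : ℝ | 1 / R < |x + 1|} := isOpen_lt continuous_const (by fun_prop)
  have h3 : IsOpen {x : ℝ | |x| < R} := isOpen_lt continuous_abs continuous_const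
  exact h1.inter (h2.inter h3)

lemma abs_fin (c : ℝ) : {x : ℝ | |x| = c}.Finite := by
  refine ((Set.finite_singleton c).union (Set.finite_singleton (-c))).subset fun x hx => ?_
  simp only [Set.mem_ofPred_eq] at hx
  rcases abs_cases x with h | h
  · left
    simp only [Set.mem_singleton_iff]
    linarith
  · right
    simp only [Set.mem_singleton_iff]
    linarith

lemma KK_frontier (R : ℝ) : (frontier (KK R)).Finite := by
  have h1 : closure (KK R) ⊆ {x | 1 / R ≤ |x| ∧ 1 / R ≤ |x + 1| ∧ |x| ≤ R} := by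
    apply closure_minimal
    · rintro x ⟨h1, h2, h3⟩
      exact ⟨h1.le, h2.le, h3.le⟩
    · have h1 : IsClosed {x : ℝ | 1 / R ≤ |x|} := isClosed_le continuous_const continuous_abs
      have h2 : IsClosed {x : ℝ | 1 / R ≤ |x + 1|} := isClosed_le continuous_const (by fun_prop)
      have h3 : IsClosed {x : ℝ | |x| ≤ R} := isClosed_le continuous_abs continuous_const
      exact h1.inter (h2.inter h3)
  rw [(KK_open R).frontier_eq]
  have h2 : ((fun x : ℝ => x + 1) ⁻¹' {x : ℝ | |x| = 1 / R}).Finite :=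
    (abs_fin (1 / R)).preimage (fun x _ y _ h => by simpa using h)
  refine (((abs_fin (1 / R)).union h2).union (abs_fin R)).subset ?_
  rintro x ⟨hx1, hx2⟩
  obtain ⟨a1, a2, a3⟩ := h1 hx1
  by_contra hcon
  apply hx2
  simp only [Set.mem_union, Set.mem_preimage, Set.mem_ofPred_eq, not_or] at hcon
  obtain ⟨⟨b1, b2⟩, b3⟩ := hcon
  exact ⟨lt_of_le_of_ne a1 (Ne.symm b1), lt_of_le_of_ne a2 (Ne.symm b2), lt_of_le_of_ne a3 b3⟩

lemma KK_mono {m n : ℕ} (h : m ≤ n) : KK (m : ℝ) ⊆ KK (n : ℝ) := by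
  rintro x ⟨h1, h2, h3⟩
  have hm : (0 : ℝ) < m := lt_of_le_of_lt (abs_nonneg x) h3
  have hmn : (m : ℝ) ≤ n := by exact_mod_cast h
  have h4 : 1 / (n : ℝ) ≤ 1 / m := one_div_le_one_div_of_le hm hmn
  exact ⟨h4.trans_lt h1, h4.trans_lt h2, h3.trans_le hmn⟩

lemma mem_KK_of {x : ℝ} (h0 : x ≠ 0) (h1 : x + 1 ≠ 0) : ∀ᶠ n : ℕ in atTop, x ∈ KK (n : ℝ) := by
  have h2 : ∀ᶠ n : ℕ in atTop, 1 / (n : ℝ) < |x| :=
    tendsto_one_div_atTop_nhds_zero_nat.eventually_lt_const (abs_pos.2 h0)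
  have h3 : ∀ᶠ n : ℕ in atTop, 1 / (n : ℝ) < |x + 1| :=
    tendsto_one_div_atTop_nhds_zero_nat.eventually_lt_const (abs_pos.2 h1)
  have h4 : ∀ᶠ n : ℕ in atTop, |x| < (n : ℝ) := tendsto_natCast_atTop_atTop.eventually_gt_atTop _
  filter_upwards [h2, h3, h4] with n a b c
  exact ⟨a, b, c⟩

/-- package KKJ -/
theorem kkj : S_KKJ := by
  refine ⟨fun R _ => ⟨((KK_open R).prod (KK_open R)).measurableSet, ?_⟩, fun Q hQ hd => ?_⟩
  · rw [frontier_prod_eq]
    have h0 : volume (frontier (KK R)) = 0 := (KK_frontier R).measure_zero _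
    refine measure_union_null ?_ ?_
    · rw [Measure.volume_eq_prod, Measure.prod_prod, h0, mul_zero]
    · rw [Measure.volume_eq_prod, Measure.prod_prod, h0, zero_mul]
  · have hint : Integrable (fun x : ℝ × ℝ => dens x.1 * dens x.2) := hd.mul_prod hd
    have h1 := tendsto_setIntegral_of_monotone (μ := (volume : Measure (ℝ × ℝ)))
      (f := fun x : ℝ × ℝ => dens x.1 * dens x.2) (s := fun n : ℕ => Q ∩ (KK (n : ℝ) ×ˢ KK (n : ℝ)))
      (fun n => hQ.inter ((KK_open _).prod (KK_open _)).measurableSet)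
      (fun m n h => Set.inter_subset_inter_right _ (Set.prod_mono (KK_mono h) (KK_mono h)))
      hint.integrableOn
    have h2 : (⋃ n : ℕ, Q ∩ (KK (n : ℝ) ×ˢ KK (n : ℝ))) =ᵐ[(volume : Measure (ℝ × ℝ))] Q := by
      have h3 : ∀ c : ℝ, volume {x : ℝ × ℝ | x.1 = c} = 0 := by
        intro c
        have : {x : ℝ × ℝ | x.1 = c} = {c} ×ˢ Set.univ := by
          ext x
          simp
        rw [this, Measure.volume_eq_prod, Measure.prod_prod, Real.volume_singleton, zero_mul]
      have h4 : ∀ c : ℝ, volume {x : ℝ × ℝ | x.2 = c} = 0 := by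
        intro c
        have : {x : ℝ × ℝ | x.2 = c} = Set.univ ×ˢ {c} := by
          ext x
          simp
        rw [this, Measure.volume_eq_prod, Measure.prod_prod, Real.volume_singleton, mul_zero]
      refine (Filter.eventuallyEq_set.2 ?_)
      have hae : ∀ᵐ x : ℝ × ℝ, x.1 ≠ 0 ∧ x.1 ≠ -1 ∧ x.2 ≠ 0 ∧ x.2 ≠ -1 := by
        have e1 : ∀ᵐ x : ℝ × ℝ, x.1 ≠ 0 := by
          rw [ae_iff]
          simpa using h3 0
        have e2 : ∀ᵐ x : ℝ × ℝ, x.1 ≠ -1 := by
          rw [ae_iff]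
          simpa using h3 (-1)
        have e3 : ∀ᵐ x : ℝ × ℝ, x.2 ≠ 0 := by
          rw [ae_iff]
          simpa using h4 0
        have e4 : ∀ᵐ x : ℝ × ℝ, x.2 ≠ -1 := by
          rw [ae_iff]
          simpa using h4 (-1)
        filter_upwards [e1, e2, e3, e4] with x a b c d
        exact ⟨a, b, c, d⟩
      filter_upwards [hae] with x hx
      obtain ⟨a, b, c, d⟩ := hx
      rw [Set.mem_iUnion]
      constructor
      · rintro ⟨n, hn⟩
        exact hn.1
      · intro hxQ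
        obtain ⟨n, hn1, hn2⟩ := ((mem_KK_of a (fun h => b (by linarith))).and
          (mem_KK_of c (fun h => d (by linarith)))).exists
        exact ⟨n, hxQ, hn1, hn2⟩
    rwa [setIntegral_congr_set h2] at h1

end Pool.Agent.P8H60.JG
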